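import Mathlib
import Pool.Agent.V11256.SC.Main

/-!
# Recognising clique graphs in the class `3split_3`

Deciding whether a split graph, given with a split partition `(K, S)` in which every vertex of `S`
has degree exactly three, is a clique graph is NP-hard.

The reduction is from positive one-in-three satisfiability. By the theorem of Roberts and Spencer,
such a graph (with all the neighbourhoods `N(s)` different, and every triangle of the shadow being
some `N(s)`) is a clique graph iff there is a set of pairs of vertices of `K` that contains exactly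
one pair of every triple `N(s)`. Four triples on four vertices force opposite pairs to be equal,
which transports the value of a variable.
-/

namespace Pool.Agent.Results.MP_aad05f_lc.SplitCliqueGraphs

open Pool.Agent.NPC Pool.Agent.V11256.ST Pool.Agent.V11256

/-- The cliques of a graph: the maximal complete sets of vertices. -/
def Clique {W : Type*} (H : SimpleGraph W) : Type _ :=
  {Q : Set W // Maximal (fun Q => H.IsClique Q) Q}

/-- The clique graph `K(H)`: the intersection graph of the cliques. -/
def cliqueGraph {W : Type*} (H : SimpleGraph W) : SimpleGraph (Clique H) where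
  Adj Q Q' := Q ≠ Q' ∧ (Q.1 ∩ Q'.1).Nonempty
  symm := ⟨fun Q Q' h => ⟨h.1.symm, by rw [Set.inter_comm]; exact h.2⟩⟩
  loopless := ⟨fun Q h => h.1 rfl⟩

/-- `G` is a clique graph: `G ≅ K(H)` for some finite nonempty graph `H`. -/
def IsCliqueGraph {V : Type*} (G : SimpleGraph V) : Prop :=
  ∃ (W : Type) (_ : Finite W) (_ : Nonempty W) (H : SimpleGraph W), Nonempty (G ≃g cliqueGraph H)

/-- The instances: the graph `gr x.1`, given by the list of its vertices and the list of its edges,
and a split partition `(K, S) = (x.2.1, x.2.2)` of it in which every vertex of `S` has degree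
exactly three. -/
def Instance (x : (List ℕ × List (ℕ × ℕ)) × (List ℕ × List ℕ)) : Prop :=
  (∀ v, v ∈ x.1.1 ↔ (v ∈ x.2.1 ∨ v ∈ x.2.2)) ∧ (∀ v, v ∈ x.2.1 → v ∉ x.2.2) ∧
  (∀ u v : {v : ℕ // v ∈ x.1.1}, u.1 ∈ x.2.1 → v.1 ∈ x.2.1 → u ≠ v → (gr x.1).Adj u v) ∧
  (∀ u v : {v : ℕ // v ∈ x.1.1}, u.1 ∈ x.2.2 → v.1 ∈ x.2.2 → ¬ (gr x.1).Adj u v) ∧
  (∀ v : {v : ℕ // v ∈ x.1.1}, v.1 ∈ x.2.2 → ((gr x.1).neighborSet v).ncard = 3)

/-- **Main theorem.** Deciding whether a graph in `3split_3`, given with the partition `(K, S)`, is
a clique graph is NP-hard: as a language, and in the promise form, where every instance produced by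
the reduction is a graph in `3split_3` with such a partition. -/
theorem result :
    NPHardP (fun x : (List ℕ × List (ℕ × ℕ)) × (List ℕ × List ℕ) =>
      Instance x ∧ IsCliqueGraph (gr x.1)) ∧
    ∀ L : Set (List Bool), InNP L →
      ∃ f : List Bool → (List ℕ × List (ℕ × ℕ)) × (List ℕ × List ℕ),
        PolyTime (fun w => bits (f w)) ∧ (∀ w, Instance (f w)) ∧
        ∀ w, w ∈ L ↔ IsCliqueGraph (gr (f w).1) := by
  have hard := SC.hardPr_clique
  refine ⟨npHard_of_hardPr hard (fun x h => ⟨fun g => ⟨h, g⟩, fun g => g.2⟩), fun L hL => ?_⟩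
  obtain ⟨f, hf, hpr, hfL⟩ := hard L hL
  exact ⟨f, PC.toPolyTime hf, hpr, hfL⟩

end Pool.Agent.Results.MP_aad05f_lc.SplitCliqueGraphs
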